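import Pool.Agent.Work.MP_ce4ed9_an.NonTrans
import Mathlib.Data.ZMod.Basic
import Mathlib.Topology.Order.IntermediateValue
import Mathlib.Topology.Order.Compact

/-! Colours: the residues of the times at which a point is covered by a self-covering interval. -/

open Set Filter Topology

namespace Pool.Agent.Work.MP_ce4ed9_an

/-- A self-covering interval. -/
structure Ctx where
  α : ℝ
  β : ℝ
  w : ℝ
  w' : ℝ
  p : ℕ
  par : Par α β
  hw0 : 0 ≤ w
  hww : w < w'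
  hw1 : w' ≤ 1
  hp : 1 ≤ p
  self : Ico w w' ⊆ (T α β)^[p] '' Ico w w'

namespace Ctx

variable (C : Ctx)

instance instNeZeroP : NeZero C.p := ⟨by have := C.hp; omega⟩

/-- The image at time `t`. -/
def V (t : ℕ) : Set ℝ := (T C.α C.β)^[t] '' Ico C.w C.w'

/-- Covered at a time of residue `i`. -/
def CovP (i : ZMod C.p) (x : ℝ) : Prop := ∃ t : ℕ, (t : ZMod C.p) = i ∧ x ∈ C.V t

/-- A left neighbourhood is covered at a time of residue `i`. -/
def CovM (i : ZMod C.p) (x : ℝ) : Prop :=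
  ∃ t : ℕ, (t : ZMod C.p) = i ∧ ∃ ε > 0, Ioo (x - ε) x ⊆ C.V t

lemma V_succ (t : ℕ) : C.V (t + 1) = T C.α C.β '' C.V t := by
  unfold V; rw [Function.iterate_succ', image_comp]

lemma V_sub (t : ℕ) : C.V t ⊆ Ico 0 1 := by
  cases t with
  | zero => unfold V; simpa using Ico_subset_Ico C.hw0 C.hw1
  | succ t => rw [V_succ]; rintro _ ⟨y, -, rfl⟩; exact T_mem y

lemma V_mono {t t' : ℕ} (h : t ≤ t') (he : (t : ZMod C.p) = t') : C.V t ⊆ C.V t' := by
  obtain ⟨k, hk⟩ := (Nat.modEq_iff_dvd' h).1 ((ZMod.natCast_eq_natCast_iff _ _ _).1 he)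
  obtain rfl : t' = t + C.p * k := by omega
  clear hk he h
  induction k with
  | zero => simp
  | succ k ih =>
    refine ih.trans ?_
    unfold V
    rw [mul_add, mul_one, ← add_assoc, image_iter_add _ (t + C.p * k)]
    exact image_mono C.self

lemma V_join {t t' : ℕ} (he : (t : ZMod C.p) = t') :
    ∃ s : ℕ, (s : ZMod C.p) = t ∧ C.V t ⊆ C.V s ∧ C.V t' ⊆ C.V s := by
  rcases le_total t t' with h | h
  · exact ⟨t', he.symm, C.V_mono h he, subset_rfl⟩
  · exact ⟨t, rfl, subset_rfl, C.V_mono h he.symm⟩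

lemma uniform : ∃ ρ > 0, ∀ i x, C.CovP i x → ∃ t : ℕ, ∃ a b, (t : ZMod C.p) = i ∧ a ≤ x ∧ x < b ∧
    a + ρ ≤ b ∧ Ico a b ⊆ C.V t := by
  set c := cp C.α C.β with hc
  have h1 : ∀ i : ZMod C.p, ∀ᶠ r in 𝓝[>] (0 : ℝ),
      (∃ t : ℕ, (t : ZMod C.p) = i ∧ ∃ ε > 0, Ico (c - ε) (c + ε) ⊆ C.V t) →
      ∃ t : ℕ, (t : ZMod C.p) = i ∧ Ico (c - r) (c + r) ⊆ C.V t := by
    intro i
    by_cases h : ∃ t : ℕ, (t : ZMod C.p) = i ∧ ∃ ε > 0, Ico (c - ε) (c + ε) ⊆ C.V t
    · obtain ⟨t, ht, ε, hε, hs⟩ := h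
      filter_upwards [Ioo_mem_nhdsGT hε] with r hr _
      exact ⟨t, ht, (Ico_subset_Ico (by linarith [hr.2]) (by linarith [hr.2])).trans hs⟩
    · exact Eventually.of_forall fun r h' => absurd h' h
  obtain ⟨ρ, hρ, hρ'⟩ := ((eventually_all.2 h1).and
    (Ioo_mem_nhdsGT (sub_pos.2 C.hww))).exists
  refine ⟨ρ, hρ'.1, ?_⟩
  rintro _ x ⟨t0, rfl, hx⟩
  induction t0 generalizing x with
  | zero =>
    have hx' : x ∈ Ico C.w C.w' := by simpa [V] using hx
    exact ⟨0, C.w, C.w', rfl, hx'.1, hx'.2, by linarith [hρ'.2], by simp [V]⟩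
  | succ t0 ih =>
    rw [V_succ] at hx
    obtain ⟨y, hy, rfl⟩ := hx
    obtain ⟨t, a, b, ht, h2, h3, h4, h5, h6⟩ : ∃ t : ℕ, ∃ a b, (t : ZMod C.p) = t0 ∧ a ≤ y ∧
        y < b ∧ a + ρ ≤ b ∧ Ico a b ⊆ C.V t ∧ ¬ (a < c ∧ c < b) := by
      obtain ⟨t, a, b, ht, h2, h3, h4, h5⟩ := ih y hy
      by_cases hcab : a < c ∧ c < b
      · obtain ⟨t2, ht2, h7⟩ := hρ (t0 : ZMod C.p) ⟨t, ht, min (c - a) (b - c),
          lt_min (by linarith [hcab.1]) (by linarith [hcab.2]),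
          (Ico_subset_Ico (by linarith [min_le_left (c - a) (b - c)])
            (by linarith [min_le_right (c - a) (b - c)])).trans h5⟩
        obtain ⟨s, hs, s1, s2⟩ := C.V_join (ht.trans ht2.symm)
        rcases lt_or_ge y c with hyc | hyc
        · refine ⟨s, min a (c - ρ), c, hs.trans ht, (min_le_left _ _).trans h2, hyc,
            by linarith [min_le_right a (c - ρ)], fun z hz => ?_, fun h' => lt_irrefl _ h'.2⟩
          rcases min_le_iff.1 hz.1 with h8 | h8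
          · exact s1 (h5 ⟨h8, hz.2.trans hcab.2⟩)
          · exact s2 (h7 ⟨h8, by linarith [hz.2, hρ'.1]⟩)
        · refine ⟨s, c, max b (c + ρ), hs.trans ht, hyc, h3.trans_le (le_max_left _ _),
            le_max_right _ _, fun z hz => ?_, fun h' => lt_irrefl _ h'.1⟩
          rcases lt_max_iff.1 hz.2 with h8 | h8
          · exact s1 (h5 ⟨hcab.1.le.trans hz.1, h8⟩)
          · exact s2 (h7 ⟨by linarith [hz.1, hρ'.1], h8⟩)
      · exact ⟨t, a, b, ht, h2, h3, h4, h5, hcab⟩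
    have hab : a < b := h2.trans_lt h3
    have h01 := (Ico_subset_Ico_iff hab).1 (h5.trans (C.V_sub t))
    obtain ⟨a', -, -, g2⟩ := C.par.affine h01.1 hab h01.2 h6
    have hb := C.par.bpos
    refine ⟨t + 1, a', a' + C.β * (b - a), by push_cast; rw [ht], ?_, ?_, ?_, ?_⟩
    · rw [g2 y ⟨h2, h3⟩]
      have := mul_nonneg hb.le (sub_nonneg.2 h2)
      linarith
    · rw [g2 y ⟨h2, h3⟩]
      have := mul_lt_mul_of_pos_left (sub_lt_sub_right h3 a) hb
      linarith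
    · have := mul_lt_mul_of_pos_right C.par.h1 (sub_pos.2 hab)
      linarith
    · rw [V_succ]
      exact (image_affine hb g2).trans (image_mono h5)

lemma CovP.step {C : Ctx} {i : ZMod C.p} {x : ℝ} (h : C.CovP i x) :
    C.CovP (i + 1) (T C.α C.β x) := by
  obtain ⟨t, ht, hx⟩ := h
  exact ⟨t + 1, by push_cast; rw [ht], by rw [V_succ]; exact mem_image_of_mem _ hx⟩

lemma CovM.step {C : Ctx} {i : ZMod C.p} {y z : ℝ} (h : C.CovM i y) (hz : Tm C.α C.β y z) :
    C.CovM (i + 1) z := by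
  obtain ⟨t, ht, ε, hε, hs⟩ := h
  have hb := C.par.bpos
  obtain ⟨δ, hδ, hδε, hT⟩ : ∃ δ > 0, δ ≤ ε ∧ ∀ x ∈ Ioo (y - δ) y,
      T C.α C.β x = z - C.β * (y - x) := by
    rcases hz with ⟨h1, h2, rfl⟩ | ⟨h1, h2, rfl⟩
    · refine ⟨min ε y, lt_min hε h1, min_le_left _ _, fun x hx => ?_⟩
      rw [C.par.T_left (by linarith [hx.1, min_le_right ε y]) (hx.2.trans_le h2)]; ring
    · refine ⟨min ε (y - cp C.α C.β), lt_min hε (by linarith), min_le_left _ _, fun x hx => ?_⟩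
      rw [C.par.T_right (by linarith [hx.1, min_le_right ε (y - cp C.α C.β)])
        (hx.2.trans_le h2)]; ring
  refine ⟨t + 1, by push_cast; rw [ht], C.β * δ, mul_pos hb hδ, fun u hu => ?_⟩
  have h1 : y - (z - u) / C.β ∈ Ioo (y - δ) y := by
    constructor
    · have : (z - u) / C.β < δ := by rw [div_lt_iff₀ hb]; linarith [hu.1]
      linarith
    · have : 0 < (z - u) / C.β := div_pos (by linarith [hu.2]) hb
      linarith
  rw [V_succ]
  refine ⟨_, hs ⟨by linarith [h1.1], h1.2⟩, ?_⟩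
  rw [hT _ h1]; field_simp; ring

open Classical in
/-- The colour of a point. -/
noncomputable def colP (x : ℝ) : Finset (ZMod C.p) := Finset.univ.filter fun i => C.CovP i x

open Classical in
/-- The colour of the left side of a point. -/
noncomputable def colM (x : ℝ) : Finset (ZMod C.p) := Finset.univ.filter fun i => C.CovM i x

lemma mem_colP {i : ZMod C.p} {x : ℝ} : i ∈ C.colP x ↔ C.CovP i x := by simp [colP]

lemma mem_colM {i : ZMod C.p} {x : ℝ} : i ∈ C.colM x ↔ C.CovM i x := by simp [colM]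

/-- Shift of a colour. -/
def sh (s : Finset (ZMod C.p)) : Finset (ZMod C.p) := s.map (Equiv.addRight 1).toEmbedding

lemma card_sh (s : Finset (ZMod C.p)) : (C.sh s).card = s.card := Finset.card_map _

lemma sh_inj {s s' : Finset (ZMod C.p)} (h : C.sh s = C.sh s') : s = s' :=
  Finset.map_injective _ h

lemma sh_colP (x : ℝ) : C.sh (C.colP x) ⊆ C.colP (T C.α C.β x) := by
  intro j hj
  obtain ⟨i, hi, rfl⟩ := Finset.mem_map.1 hj
  exact C.mem_colP.2 (C.mem_colP.1 hi).step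

lemma sh_colM {y z : ℝ} (hz : Tm C.α C.β y z) : C.sh (C.colM y) ⊆ C.colM z := by
  intro j hj
  obtain ⟨i, hi, rfl⟩ := Finset.mem_map.1 hj
  exact C.mem_colM.2 ((C.mem_colM.1 hi).step hz)

lemma colP_right (x : ℝ) : ∀ᶠ y in 𝓝[≥] x, C.colP x ⊆ C.colP y := by
  obtain ⟨ρ, -, hu⟩ := C.uniform
  have : ∀ i : ZMod C.p, ∀ᶠ y in 𝓝[≥] x, C.CovP i x → C.CovP i y := by
    intro i
    by_cases h : C.CovP i x
    · obtain ⟨t, a, b, ht, h1, h2, -, h3⟩ := hu i x h
      filter_upwards [Ico_mem_nhdsGE h2] with y hy _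
      exact ⟨t, ht, h3 ⟨h1.trans hy.1, hy.2⟩⟩
    · exact Eventually.of_forall fun y h' => absurd h' h
  filter_upwards [eventually_all.2 this] with y hy i hi
  exact C.mem_colP.2 (hy i (C.mem_colP.1 hi))

lemma colM_left (x : ℝ) : ∀ᶠ y in 𝓝[<] x, C.colM x ⊆ C.colP y := by
  have : ∀ i : ZMod C.p, ∀ᶠ y in 𝓝[<] x, C.CovM i x → C.CovP i y := by
    intro i
    by_cases h : C.CovM i x
    · obtain ⟨t, ht, ε, hε, h3⟩ := h
      filter_upwards [Ioo_mem_nhdsLT (by linarith : x - ε < x)] with y hy _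
      exact ⟨t, ht, h3 hy⟩
    · exact Eventually.of_forall fun y h' => absurd h' h
  filter_upwards [eventually_all.2 this] with y hy i hi
  exact C.mem_colP.2 (hy i (C.mem_colM.1 hi))

/-- Under transitivity all colours have the same size. -/
lemma card_const (ht : RTrans C.α C.β) : ∃ M, 1 ≤ M ∧ (∀ x ∈ Ico (0 : ℝ) 1, (C.colP x).card = M) ∧
    ∀ x ∈ Ioc (0 : ℝ) 1, (C.colM x).card = M := by
  obtain ⟨x0, hx0, hmax⟩ : ∃ x0 ∈ Ico (0 : ℝ) 1, ∀ x ∈ Ico (0 : ℝ) 1,
      (C.colP x).card ≤ (C.colP x0).card := by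
    have hfin : ((fun x => (C.colP x).card) '' Ico (0 : ℝ) 1).Finite :=
      (finite_Iic (Fintype.card (ZMod C.p))).subset (by
        rintro _ ⟨x, -, rfl⟩; exact Finset.card_le_univ _)
    obtain ⟨_, ⟨x0, hx0, rfl⟩, h⟩ := hfin.exists_maximal ⟨_, 0, ⟨le_rfl, one_pos⟩, rfl⟩
    refine ⟨x0, hx0, fun x hx => ?_⟩
    by_contra h1
    exact h1 (h ⟨x, hx, rfl⟩ (not_le.1 h1).le)
  set M := (C.colP x0).card with hM
  obtain ⟨ρ, hρ, hu⟩ := C.uniform
  have hstepP : ∀ x, (C.colP x).card ≤ (C.colP (T C.α C.β x)).card := fun x => by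
    rw [← C.card_sh]; exact Finset.card_le_card (C.sh_colP x)
  have hiter : ∀ n x, (C.colP x).card ≤ (C.colP ((T C.α C.β)^[n] x)).card := by
    intro n
    induction n with
    | zero => exact fun x => le_rfl
    | succ n ih => exact fun x => (hstepP x).trans (ih _)
  have hdense : ∀ a b : ℝ, 0 ≤ a → a < b → b ≤ 1 → ∃ y ∈ Ioo a b, M ≤ (C.colP y).card := by
    intro a b ha hab hb
    obtain ⟨u, hu1, hu2⟩ := mem_nhdsGE_iff_exists_Ico_subset.1
      ((C.colP_right x0).and (Ico_mem_nhdsGE hx0.2))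
    have hu3 : u ≤ 1 := by
      by_contra h
      exact lt_irrefl _ (hu2 ⟨hx0.2.le, not_le.1 h⟩).2.2
    obtain ⟨n, x, hx, hx'⟩ := ht x0 u a b hx0.1 hu1 hu3 ha hab hb
    exact ⟨_, hx', (Finset.card_le_card (hu2 ⟨hx.1.le, hx.2⟩).1).trans (hiter n x)⟩
  have hleM : ∀ x ∈ Ioc (0 : ℝ) 1, (C.colM x).card ≤ M := by
    intro x hx
    obtain ⟨y, h1, h2⟩ := ((C.colM_left x).and (Ioo_mem_nhdsLT hx.1)).exists
    exact (Finset.card_le_card h1).trans (hmax y ⟨h2.1.le, h2.2.trans_le hx.2⟩)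
  refine ⟨M, ?_, ?_, ?_⟩
  · have h1 : (0 : ZMod C.p) ∈ C.colP C.w :=
      C.mem_colP.2 ⟨0, by simp, by simpa [V] using C.hww⟩
    exact (Finset.card_pos.2 ⟨_, h1⟩).trans_le (hmax _ ⟨C.hw0, C.hww.trans_le C.hw1⟩)
  · by_contra hcon
    push Not at hcon
    obtain ⟨x1, hx1, hne⟩ := hcon
    refine C.par.not_trans_right (F := {z ∈ Ico (0 : ℝ) 1 | (C.colP z).card < M}) ?_
      ⟨x1, hx1, lt_of_le_of_ne (hmax _ hx1) hne⟩ (fun z hz => hz.1) ?_ ht
    · refine (finite_iUnion (f := fun i : ZMod C.p => {z ∈ Ico (0 : ℝ) 1 | ¬ C.CovP i z ∧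
        ∃ᶠ y in 𝓝[>] z, C.CovP i y}) fun i => finite_of_sep hρ
          (fun z hz => Ico_subset_Icc_self hz.1) ?_).subset ?_
      · rintro z ⟨-, hz1, hz2⟩ z' ⟨-, hz1', -⟩ hlt
        by_contra hcon
        obtain ⟨y, hy, hy'⟩ := (hz2.and_eventually (Ioo_mem_nhdsGT hlt)).exists
        obtain ⟨t, a, b, ht', h1, h2, h3, h4⟩ := hu i y hy
        have hza : z < a := by
          by_contra h5
          exact hz1 ⟨t, ht', h4 ⟨not_lt.1 h5, hy'.1.trans h2⟩⟩
        exact hz1' ⟨t, ht', h4 ⟨h1.trans hy'.2.le, by linarith⟩⟩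
      · rintro z ⟨hz, hlt⟩
        by_contra hcon
        simp only [mem_iUnion, mem_ofPred_eq, not_exists, not_and, not_frequently] at hcon
        have h1 : ∀ i : ZMod C.p, ∀ᶠ y in 𝓝[>] z, C.CovP i y → C.CovP i z := by
          intro i
          by_cases h : C.CovP i z
          · exact Eventually.of_forall fun _ _ => h
          · filter_upwards [hcon i hz h] with y hy hy'
            exact absurd hy' hy
        obtain ⟨u, hu1, hu2⟩ := mem_nhdsGT_iff_exists_Ioo_subset.1 (eventually_all.2 h1)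
        obtain ⟨y, hy, hy'⟩ := hdense z (min u 1) hz.1 (lt_min hu1 hz.2) (min_le_right _ _)
        have : C.colP y ⊆ C.colP z := fun i hi => C.mem_colP.2
          (hu2 ⟨hy.1, hy.2.trans_le (min_le_left _ _)⟩ i (C.mem_colP.1 hi))
        have := Finset.card_le_card this
        omega
    · rintro _ ⟨-, hz⟩ y hy rfl
      exact ⟨hy, (hstepP y).trans_lt hz⟩
  · by_contra hcon
    push Not at hcon
    obtain ⟨x1, hx1, hne⟩ := hcon
    refine C.par.not_trans_left (F := {z ∈ Ioc (0 : ℝ) 1 | (C.colM z).card < M}) ?_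
      ⟨x1, hx1, lt_of_le_of_ne (hleM _ hx1) hne⟩ (fun z hz => hz.1) ?_ ht
    · refine (finite_iUnion (f := fun i : ZMod C.p => {z ∈ Ioc (0 : ℝ) 1 | ¬ C.CovM i z ∧
        ∃ᶠ y in 𝓝[<] z, C.CovP i y}) fun i => finite_of_sep hρ
          (fun z hz => Ioc_subset_Icc_self hz.1) ?_).subset ?_
      · rintro z' ⟨-, hz1', -⟩ z ⟨-, hz1, hz2⟩ hlt
        by_contra hcon
        obtain ⟨y, hy, hy'⟩ := (hz2.and_eventually (Ioo_mem_nhdsLT hlt)).exists
        obtain ⟨t, a, b, ht', h1, h2, h3, h4⟩ := hu i y hy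
        have hzb : b < z := by
          by_contra h5
          exact hz1 ⟨t, ht', z - y, by linarith [hy'.2], fun u hu' =>
            h4 ⟨by linarith [hu'.1], hu'.2.trans_le (not_lt.1 h5)⟩⟩
        exact hz1' ⟨t, ht', z' - a, by linarith, fun u hu' =>
          h4 ⟨by linarith [hu'.1], by linarith [hu'.2, hy'.1]⟩⟩
      · rintro z ⟨hz, hlt⟩
        by_contra hcon
        simp only [mem_iUnion, mem_ofPred_eq, not_exists, not_and, not_frequently] at hcon
        have h1 : ∀ i : ZMod C.p, ∀ᶠ y in 𝓝[<] z, C.CovP i y → C.CovM i z := by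
          intro i
          by_cases h : C.CovM i z
          · exact Eventually.of_forall fun _ _ => h
          · filter_upwards [hcon i hz h] with y hy hy'
            exact absurd hy' hy
        obtain ⟨u, hu1, hu2⟩ := mem_nhdsLT_iff_exists_Ioo_subset.1 (eventually_all.2 h1)
        obtain ⟨y, hy, hy'⟩ := hdense (max u 0) z (le_max_right _ _) (max_lt hu1 hz.1) hz.2
        have : C.colP y ⊆ C.colM z := fun i hi => C.mem_colM.2
          (hu2 ⟨(le_max_left _ _).trans_lt hy.1, hy.2⟩ i (C.mem_colP.1 hi))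
        have := Finset.card_le_card this
        omega
    · rintro z ⟨-, hz⟩ y hy
      refine ⟨?_, lt_of_le_of_lt ?_ hz⟩
      · rcases hy with ⟨h1, h2, -⟩ | ⟨h1, h2, -⟩
        · exact ⟨h1, h2.trans C.par.cp_lt.le⟩
        · exact ⟨C.par.cp_pos.trans h1, h2⟩
      · rw [← C.card_sh]; exact Finset.card_le_card (C.sh_colM hy)

end Ctx

end Pool.Agent.Work.MP_ce4ed9_an
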