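import Mathlib.Algebra.Order.Floor.Ring
import Mathlib.Topology.Instances.Real.Lemmas

/-! Definitions for transitivity versus LEO of `x ↦ β x + α mod 1`. -/

namespace Pool.Agent.Work.MP_ce4ed9_an

/-- `f` is topologically transitive. -/
def TopTransitive {X : Type} [TopologicalSpace X] (f : X → X) : Prop :=
  ∀ U V : Set X, IsOpen U → IsOpen V → U.Nonempty → V.Nonempty →
    ∃ n : ℕ, 1 ≤ n ∧ (f^[n] '' U ∩ V).Nonempty

/-- `f` is topologically locally eventually onto. -/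
def TopLEO {X : Type} [TopologicalSpace X] (f : X → X) : Prop :=
  ∀ U : Set X, IsOpen U → U.Nonempty → ∃ n : ℕ, 1 ≤ n ∧ f^[n] '' U = Set.univ

/-- The map `x ↦ β x + α mod 1` of `[0, 1)`. -/
noncomputable def betaMap (α β : ℝ) (x : Set.Ico (0 : ℝ) 1) : Set.Ico (0 : ℝ) 1 :=
  ⟨Int.fract (β * x + α), Int.fract_nonneg _, Int.fract_lt_one _⟩

end Pool.Agent.Work.MP_ce4ed9_an
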