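import Mathlib.Algebra.Order.Floor.Ring
import Mathlib.Algebra.Order.Archimedean.Basic
import Mathlib.Topology.Instances.Real.Lemmas
import Mathlib.Data.Fintype.Pigeonhole
import Mathlib.Order.Interval.Finset.Nat
import Mathlib.Tactic.Linarith
import Mathlib.Tactic.FieldSimp
import Mathlib.Tactic.Positivity

/-! Growth of intervals under `x ↦ β x + α mod 1`. -/

open Set Filter Topology

namespace Pool.Agent.Work.MP_ce4ed9_an

/-- The map on the real line. -/
noncomputable def T (α β x : ℝ) : ℝ := Int.fract (β * x + α)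

/-- The discontinuity. -/
noncomputable def cp (α β : ℝ) : ℝ := (1 - α) / β

/-- The parameter region. -/
structure Par (α β : ℝ) : Prop where
  h1 : 1 < β
  h3 : 0 ≤ α
  h4 : α + β ≤ 2

variable {α β : ℝ}

lemma T_mem (x : ℝ) : T α β x ∈ Ico (0 : ℝ) 1 := ⟨Int.fract_nonneg _, Int.fract_lt_one _⟩

lemma Par.bpos (h : Par α β) : 0 < β := by linarith [h.h1]

lemma Par.mul_cp (h : Par α β) : β * cp α β = 1 - α := by
  unfold cp; field_simp [h.bpos.ne']

lemma Par.cp_pos (h : Par α β) : 0 < cp α β := by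
  unfold cp; exact div_pos (by linarith [h.h1, h.h4]) h.bpos

lemma Par.cp_lt (h : Par α β) : cp α β < 1 := by
  unfold cp; rw [div_lt_one h.bpos]; linarith [h.h1, h.h3]

lemma Par.T_left (h : Par α β) {x : ℝ} (h0 : 0 ≤ x) (h1 : x < cp α β) : T α β x = β * x + α := by
  have := mul_lt_mul_of_pos_left h1 h.bpos
  have := mul_nonneg h.bpos.le h0
  exact Int.fract_eq_self.2 ⟨by linarith [h.h3], by linarith [h.mul_cp]⟩

lemma Par.T_right (h : Par α β) {x : ℝ} (h0 : cp α β ≤ x) (h1 : x < 1) :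
    T α β x = β * x + α - 1 := by
  have := mul_lt_mul_of_pos_left h1 h.bpos
  have := mul_le_mul_of_nonneg_left h0 h.bpos.le
  unfold T
  rw [Int.fract_eq_iff]
  exact ⟨by linarith [h.mul_cp], by linarith [h.h4], 1, by simp⟩

/-- On an interval without the discontinuity in its interior the map is affine. -/
lemma Par.affine (h : Par α β) {a b : ℝ} (ha : 0 ≤ a) (_hab : a < b) (hb : b ≤ 1)
    (hc : ¬ (a < cp α β ∧ cp α β < b)) :
    ∃ a', 0 ≤ a' ∧ a' + β * (b - a) ≤ 1 ∧ ∀ x ∈ Ico a b, T α β x = a' + β * (x - a) := by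
  rcases le_or_gt (cp α β) a with h1 | h1
  · have := mul_le_mul_of_nonneg_left h1 h.bpos.le
    have := mul_le_mul_of_nonneg_left hb h.bpos.le
    refine ⟨β * a + α - 1, by linarith [h.mul_cp], by linarith [h.h4], fun x hx => ?_⟩
    rw [h.T_right (h1.trans hx.1) (hx.2.trans_le hb)]; ring
  · have h2 : b ≤ cp α β := by
      by_contra h3
      exact hc ⟨h1, not_le.1 h3⟩
    have := mul_le_mul_of_nonneg_left h2 h.bpos.le
    have := mul_nonneg h.bpos.le ha
    refine ⟨β * a + α, by linarith [h.h3], by linarith [h.mul_cp], fun x hx => ?_⟩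
    rw [h.T_left (ha.trans hx.1) (hx.2.trans_le h2)]; ring

lemma image_affine {f : ℝ → ℝ} {a b a' s : ℝ} (hs : 0 < s)
    (hf : ∀ x ∈ Ico a b, f x = a' + s * (x - a)) : Ico a' (a' + s * (b - a)) ⊆ f '' Ico a b := by
  intro y hy
  have h1 : a + (y - a') / s ∈ Ico a b := by
    constructor
    · have : 0 ≤ (y - a') / s := div_nonneg (by linarith [hy.1]) hs.le
      linarith
    · have : (y - a') / s < b - a := by rw [div_lt_iff₀ hs]; linarith [hy.2]
      linarith
  refine ⟨_, h1, ?_⟩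
  rw [hf _ h1]; field_simp; ring

lemma Par.affine_iter (h : Par α β) {a b : ℝ} (ha : 0 ≤ a) (hab : a < b) (hb : b ≤ 1) (k : ℕ)
    (hc : ∀ j < k, ∀ y ∈ Ioo a b, (T α β)^[j] y ≠ cp α β) :
    ∃ a', 0 ≤ a' ∧ a' + β ^ k * (b - a) ≤ 1 ∧
      ∀ x ∈ Ico a b, (T α β)^[k] x = a' + β ^ k * (x - a) := by
  induction k with
  | zero => exact ⟨a, ha, by simpa using hb, fun x _ => by simp⟩
  | succ k ih =>
    obtain ⟨a', h0, h1, h2⟩ := ih fun j hj => hc j (Nat.lt_succ_of_lt hj)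
    have hp : 0 < β ^ k := pow_pos h.bpos k
    have hl : 0 < β ^ k * (b - a) := mul_pos hp (by linarith)
    obtain ⟨a'', g0, g1, g2⟩ := h.affine h0 (by linarith : a' < a' + β ^ k * (b - a)) h1 (by
      rintro ⟨c1, c2⟩
      obtain ⟨y, hy, hy'⟩ := image_affine hp h2 ⟨c1.le, c2⟩
      refine hc k (Nat.lt_succ_self k) y ⟨lt_of_le_of_ne hy.1 ?_, hy.2⟩ hy'
      rintro rfl
      rw [h2 _ hy] at hy'
      simp at hy'
      linarith)
    refine ⟨a'', g0, ?_, fun x hx => ?_⟩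
    · rw [pow_succ]; nlinarith
    · rw [Function.iterate_succ_apply', h2 x hx, g2]
      · rw [pow_succ]; ring
      · have := mul_nonneg hp.le (sub_nonneg.2 hx.1)
        have := mul_lt_mul_of_pos_left (sub_lt_sub_right hx.2 a) hp
        constructor <;> linarith

lemma Par.finite_preimage (h : Par α β) (j : ℕ) (z : ℝ) :
    {y ∈ Ico (0 : ℝ) 1 | (T α β)^[j] y = z}.Finite := by
  induction j generalizing z with
  | zero => exact (finite_singleton z).subset fun y hy => hy.2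
  | succ j ih =>
    refine ((ih ((z - α) / β)).union (ih ((z + 1 - α) / β))).subset ?_
    rintro y ⟨hy, hz⟩
    rw [Function.iterate_succ_apply'] at hz
    have hm : (T α β)^[j] y ∈ Ico (0 : ℝ) 1 := by
      cases j with
      | zero => exact hy
      | succ j => rw [Function.iterate_succ_apply']; exact T_mem _
    have hb := h.bpos.ne'
    rcases lt_or_ge ((T α β)^[j] y) (cp α β) with h1 | h1
    · left; refine ⟨hy, ?_⟩
      rw [h.T_left hm.1 h1] at hz
      rw [← hz]; field_simp; ring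
    · right; refine ⟨hy, ?_⟩
      rw [h.T_right h1 hm.2] at hz
      rw [← hz]; field_simp; ring

/-- A finite set stays away from a point, except possibly for the point itself. -/
lemma exists_gap {S : Set ℝ} (hS : S.Finite) (c : ℝ) :
    ∃ η > 0, ∀ y ∈ S, y ≠ c → η ≤ |y - c| := by
  have h1 : IsClosed (S \ {c}) := (hS.subset sdiff_subset).isClosed
  have h2 : (S \ {c})ᶜ ∈ 𝓝 c := h1.isOpen_compl.mem_nhds (by simp)
  obtain ⟨η, h0, h3⟩ := Metric.mem_nhds_iff.1 h2
  refine ⟨η, h0, fun y hy hne => ?_⟩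
  by_contra h4
  exact h3 (show y ∈ Metric.ball c η by rw [Metric.mem_ball, Real.dist_eq]; linarith) ⟨hy, hne⟩

lemma image_iter_add (f : ℝ → ℝ) (m n : ℕ) (s : Set ℝ) :
    f^[m + n] '' s = f^[m] '' (f^[n] '' s) := by
  rw [Function.iterate_add, image_comp]

/-- Every interval grows to a definite size. -/
lemma Par.growth (h : Par α β) : ∃ η > 0, ∀ a b : ℝ, 0 ≤ a → a < b → b ≤ 1 →
    ∃ n a', 1 ≤ n ∧ 0 ≤ a' ∧ a' + η ≤ 1 ∧ Ico a' (a' + η) ⊆ (T α β)^[n] '' Ico a b := by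
  obtain ⟨m, hm⟩ := pow_unbounded_of_one_lt 2 h.h1
  have hfin : (⋃ j ∈ Finset.range m, {y ∈ Ico (0 : ℝ) 1 | (T α β)^[j] y = cp α β}).Finite :=
    (Finset.range m).finite_toSet.biUnion fun j _ => h.finite_preimage j _
  obtain ⟨η, hη, hgap⟩ := exists_gap hfin (cp α β)
  refine ⟨η, hη, fun a b ha hab hb => ?_⟩
  set κ := min β (β ^ m / 2) with hκ
  have hκ1 : 1 < κ := lt_min h.h1 (by linarith)
  let Λ : ℝ → Prop := fun l =>
    ∃ n a', 1 ≤ n ∧ 0 ≤ a' ∧ a' + l ≤ 1 ∧ Ico a' (a' + l) ⊆ (T α β)^[n] '' Ico a b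
  have hdown : ∀ l l', l' ≤ l → Λ l → Λ l' := by
    rintro l l' hl ⟨n, a', h1, h2, h3, h4⟩
    exact ⟨n, a', h1, h2, by linarith, (Ico_subset_Ico_right (by linarith)).trans h4⟩
  have hstep : ∀ l, 0 < l → l ≤ η → Λ l → Λ (κ * l) := by
    rintro l hl hlη ⟨n, a', h1, h2, h3, h4⟩
    have key : ∀ u v k, a' ≤ u → u < v → v ≤ a' + l →
        (∀ j < k, ∀ y ∈ Ioo u v, (T α β)^[j] y ≠ cp α β) → Λ (β ^ k * (v - u)) := by
      intro u v k hu huv hv hc
      obtain ⟨a'', g0, g1, g2⟩ := h.affine_iter (by linarith) huv (by linarith) k hc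
      refine ⟨k + n, a'', by omega, g0, g1, ?_⟩
      rw [image_iter_add]
      exact (image_affine (pow_pos h.bpos k) g2).trans
        (image_mono ((Ico_subset_Ico hu hv).trans h4))
    have far : ∀ u v, 0 ≤ u → v ≤ 1 → (∀ y ∈ Ioo u v, y ≠ cp α β ∧ |y - cp α β| < η) →
        ∀ j < m, ∀ y ∈ Ioo u v, (T α β)^[j] y ≠ cp α β := by
      intro u v hu hv hy j hj y hyuv he
      have := hgap y (mem_iUnion₂.2 ⟨j, Finset.mem_range.2 hj,
        ⟨by linarith [hyuv.1], by linarith [hyuv.2]⟩, he⟩) (hy y hyuv).1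
      linarith [(hy y hyuv).2]
    by_cases hc : a' < cp α β ∧ cp α β < a' + l
    · have hk : κ * l ≤ β ^ m * (l / 2) := by
        have : κ * l ≤ β ^ m / 2 * l := mul_le_mul_of_nonneg_right (min_le_right _ _) hl.le
        linarith
      have hp : 0 < β ^ m := pow_pos h.bpos m
      rcases le_total (cp α β - a') (l / 2) with h5 | h5
      · refine hdown _ _ ?_ (key (cp α β) (a' + l) m hc.1.le hc.2 le_rfl
          (far _ _ h.cp_pos.le h3 fun y hy => ⟨hy.1.ne', ?_⟩))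
        · exact hk.trans (mul_le_mul_of_nonneg_left (by linarith) hp.le)
        · rw [abs_of_pos (by linarith [hy.1])]; linarith [hy.2, hc.1]
      · refine hdown _ _ ?_ (key a' (cp α β) m le_rfl hc.1 hc.2.le
          (far _ _ h2 h.cp_lt.le fun y hy => ⟨hy.2.ne, ?_⟩))
        · exact hk.trans (mul_le_mul_of_nonneg_left h5 hp.le)
        · rw [abs_of_neg (by linarith [hy.2])]; linarith [hy.1, hc.2]
    · refine hdown _ _ ?_ (key a' (a' + l) 1 le_rfl (by linarith) le_rfl ?_)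
      · have : κ * l ≤ β * l := mul_le_mul_of_nonneg_right (min_le_left _ _) hl.le
        simpa using this
      · intro j hj y hy he
        obtain rfl : j = 0 := by omega
        simp only [Function.iterate_zero, id] at he
        exact hc ⟨he ▸ hy.1, he ▸ hy.2⟩
  obtain ⟨l0, hl0, hΛ0⟩ : ∃ l0, 0 < l0 ∧ Λ l0 := by
    obtain ⟨b', hb1, hb2, hb3⟩ : ∃ b', a < b' ∧ b' ≤ b ∧ ¬ (a < cp α β ∧ cp α β < b') := by
      by_cases hc : a < cp α β ∧ cp α β < b
      · exact ⟨cp α β, hc.1, hc.2.le, fun h' => lt_irrefl _ h'.2⟩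
      · exact ⟨b, hab, le_rfl, hc⟩
    obtain ⟨a', g0, g1, g2⟩ := h.affine ha hb1 (hb2.trans hb) hb3
    refine ⟨β * (b' - a), mul_pos h.bpos (by linarith), 1, a', le_rfl, g0, g1, ?_⟩
    exact (image_affine h.bpos g2).trans (image_mono (Ico_subset_Ico_right hb2))
  have hall : ∀ j : ℕ, Λ (min (κ ^ j * l0) η) := by
    intro j
    induction j with
    | zero => exact hdown _ _ (by simp) hΛ0
    | succ j ih =>
      have hpos : 0 < κ ^ j * l0 := by positivity
      refine hdown _ _ ?_ (hstep _ (lt_min hpos hη) (min_le_right _ _) ih)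
      rcases le_total (κ ^ j * l0) η with h5 | h5
      · rw [min_eq_left h5]
        exact (min_le_left _ _).trans (le_of_eq (by ring))
      · rw [min_eq_right h5]
        exact (min_le_right _ _).trans (by nlinarith)
  obtain ⟨j, hj⟩ := pow_unbounded_of_one_lt (η / l0) hκ1
  have := hall j
  rw [min_eq_right (by rw [div_lt_iff₀ hl0] at hj; exact hj.le)] at this
  exact this

/-- Every interval eventually covers an interval that covers itself. -/
lemma Par.self_cover (h : Par α β) {a b : ℝ} (ha : 0 ≤ a) (hab : a < b) (hb : b ≤ 1) :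
    ∃ w w' : ℝ, ∃ k p : ℕ, 0 ≤ w ∧ w < w' ∧ w' ≤ 1 ∧ 1 ≤ k ∧ 1 ≤ p ∧
      Ico w w' ⊆ (T α β)^[k] '' Ico a b ∧ Ico w w' ⊆ (T α β)^[p] '' Ico w w' := by
  obtain ⟨η, hη, hg⟩ := h.growth
  set r := η / 2 with hr
  have hr0 : 0 < r := by positivity
  let I := {i : ℕ // ((i : ℝ) + 1) * r ≤ 1}
  have hI : Finite I := by
    obtain ⟨N, hN⟩ := exists_nat_ge (1 / r)
    refine Finite.of_injective (fun i : I => (⟨i.1, ?_⟩ : Fin N)) ?_
    · have h1 := i.2
      rw [← le_div_iff₀ hr0] at h1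
      have : (i.1 : ℝ) < N := by linarith
      exact_mod_cast this
    · intro i j hij
      exact Subtype.ext (congrArg Fin.val hij)
  let C : I → Set ℝ := fun i => Ico (i.1 * r) ((i.1 + 1) * r)
  have hcell : ∀ u v : ℝ, 0 ≤ u → u < v → v ≤ 1 →
      ∃ i : I, ∃ n, 1 ≤ n ∧ C i ⊆ (T α β)^[n] '' Ico u v := by
    intro u v hu huv hv
    obtain ⟨n, a', h1, h2, h3, h4⟩ := hg u v hu huv hv
    have c1 : a' / r ≤ ⌈a' / r⌉₊ := Nat.le_ceil _
    have c2 : (⌈a' / r⌉₊ : ℝ) < a' / r + 1 := Nat.ceil_lt_add_one (by positivity)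
    rw [div_le_iff₀ hr0] at c1
    have c3 : ((⌈a' / r⌉₊ : ℝ) + 1) * r ≤ a' + η := by
      have := mul_lt_mul_of_pos_right c2 hr0
      rw [add_mul, div_mul_cancel₀ _ hr0.ne'] at this
      linarith
    exact ⟨⟨⌈a' / r⌉₊, by linarith⟩, n, h1, (Ico_subset_Ico c1 c3).trans h4⟩
  have hC : ∀ i : I, 0 ≤ (i.1 : ℝ) * r ∧ (i.1 : ℝ) * r < (i.1 + 1) * r := fun i =>
    ⟨by positivity, by linarith⟩
  choose s hs using fun i : I => hcell _ _ (hC i).1 (hC i).2 i.2
  obtain ⟨i0, k0, hk0, hi0⟩ := hcell a b ha hab hb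
  have hiter : ∀ (i : I) (d : ℕ), ∃ n, d ≤ n ∧ C (s^[d] i) ⊆ (T α β)^[n] '' C i := by
    intro i d
    induction d with
    | zero => exact ⟨0, le_rfl, by simp⟩
    | succ d ih =>
      obtain ⟨n, hn, h1⟩ := ih
      obtain ⟨n', hn', h2⟩ := hs (s^[d] i)
      refine ⟨n' + n, by omega, ?_⟩
      rw [Function.iterate_succ_apply', image_iter_add]
      exact h2.trans (image_mono h1)
  obtain ⟨k1, k2, hlt, heq⟩ : ∃ k1 k2, k1 < k2 ∧ s^[k1] i0 = s^[k2] i0 := by
    obtain ⟨x, y, hne, he⟩ := Finite.exists_ne_map_eq_of_infinite fun k : ℕ => s^[k] i0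
    rcases lt_or_gt_of_ne hne with h1 | h1
    · exact ⟨x, y, h1, he⟩
    · exact ⟨y, x, h1, he.symm⟩
  obtain ⟨n1, -, h1⟩ := hiter i0 k1
  obtain ⟨p, hp, h2⟩ := hiter (s^[k1] i0) (k2 - k1)
  rw [← Function.iterate_add_apply, Nat.sub_add_cancel hlt.le, ← heq] at h2
  refine ⟨_, _, n1 + k0, p, (hC (s^[k1] i0)).1, (hC _).2, (s^[k1] i0).2, by omega, by omega, ?_, h2⟩
  rw [image_iter_add]
  exact h1.trans (image_mono hi0)

end Pool.Agent.Work.MP_ce4ed9_an
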