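import Pool.Agent.Work.MP_ce4ed9_an.Color
import Pool.Agent.Work.MP_ce4ed9_an.Defs
import Mathlib.Algebra.AlgebraicCard
import Mathlib.Algebra.Polynomial.Cardinal

/-! Transitive and not LEO forces two finite orbits, hence countably many parameters. -/

open Set Filter Topology

namespace Pool.Agent.Work.MP_ce4ed9_an

namespace Ctx

variable (C : Ctx)

/-- Either the self-covering interval is eventually onto, or two orbits are finite. -/
lemma dichotomy (ht : RTrans C.α C.β) : (∃ t, Ico 0 1 ⊆ C.V t) ∨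
    ∃ S : Set ℝ, S.Finite ∧ MapsTo (T C.α C.β) S S ∧ C.α ∈ S ∧ C.α + C.β - 1 ∈ S := by
  obtain ⟨M, hM1, hP, hM⟩ := C.card_const ht
  obtain ⟨ρ, hρ, hu⟩ := C.uniform
  set G := {z ∈ Ioo (0 : ℝ) 1 | C.colM z ≠ C.colP z} with hG
  have eP : ∀ y ∈ Ico (0 : ℝ) 1, C.sh (C.colP y) = C.colP (T C.α C.β y) := fun y hy =>
    Finset.eq_of_subset_of_card_le (C.sh_colP y) (by rw [C.card_sh, hP y hy, hP _ (T_mem y)])
  have eM : ∀ y ∈ Ioc (0 : ℝ) 1, ∀ z ∈ Ioc (0 : ℝ) 1, Tm C.α C.β y z →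
      C.sh (C.colM y) = C.colM z := fun y hy z hz h =>
    Finset.eq_of_subset_of_card_le (C.sh_colM h) (by rw [C.card_sh, hM y hy, hM z hz])
  have hb := C.par.bpos
  have hTm : ∀ y ∈ Ioo (0 : ℝ) 1, y ≠ cp C.α C.β →
      Tm C.α C.β y (T C.α C.β y) ∧ 0 < T C.α C.β y := by
    intro y hy hne
    rcases lt_or_gt_of_ne hne with h | h
    · have := mul_pos hb hy.1
      rw [C.par.T_left hy.1.le h]
      exact ⟨Or.inl ⟨hy.1, h.le, rfl⟩, by linarith [C.par.h3]⟩
    · have := mul_lt_mul_of_pos_left h hb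
      rw [C.par.T_right h.le hy.2]
      exact ⟨Or.inr ⟨h, hy.2.le, rfl⟩, by linarith [C.par.mul_cp]⟩
  have hGiff : ∀ y ∈ Ioo (0 : ℝ) 1, y ≠ cp C.α C.β → (y ∈ G ↔ T C.α C.β y ∈ G) := by
    intro y hy hne
    obtain ⟨h1, h2⟩ := hTm y hy hne
    have h3 := eP y (Ioo_subset_Ico_self hy)
    have h4 := eM y (Ioo_subset_Ioc_self hy) _ ⟨h2, (T_mem y).2.le⟩ h1
    constructor
    · rintro ⟨-, h5⟩
      exact ⟨⟨h2, (T_mem y).2⟩, fun h6 => h5 (C.sh_inj (by rw [h3, h4, h6]))⟩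
    · rintro ⟨-, h5⟩
      exact ⟨hy, fun h6 => h5 (by rw [← h3, ← h4, h6])⟩
  have hTc : T C.α C.β (cp C.α C.β) = 0 := by
    rw [C.par.T_right le_rfl C.par.cp_lt]; linarith [C.par.mul_cp]
  have hT0 : T C.α C.β 0 = C.α := by rw [C.par.T_left le_rfl C.par.cp_pos]; ring
  by_cases hne : G.Nonempty
  · right
    have hfin : G.Finite := by
      refine (finite_iUnion (f := fun i : ZMod C.p => {z ∈ Ioo (0 : ℝ) 1 | C.CovM i z ∧
        ¬ C.CovP i z}) fun i => finite_of_sep hρ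
          (fun z hz => Ioo_subset_Icc_self hz.1) ?_).subset ?_
      · rintro z ⟨-, -, hz1⟩ z' ⟨-, ⟨t', ht', ε, hε, hs⟩, hz2⟩ hlt
        by_contra hcon
        obtain ⟨y, hy1, hy2⟩ := exists_between (max_lt hlt (by linarith : z' - ε < z'))
        obtain ⟨t, a, b, ht'', h1, h2, h3, h4⟩ := hu i y
          ⟨t', ht', hs ⟨(le_max_right _ _).trans_lt hy1, hy2⟩⟩
        have hzb : b ≤ z' := by
          by_contra h5
          exact hz2 ⟨t, ht'', h4 ⟨h1.trans hy2.le, not_le.1 h5⟩⟩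
        exact hz1 ⟨t, ht'', h4 ⟨by linarith, ((le_max_left _ _).trans_lt hy1).trans h2⟩⟩
      · rintro z ⟨hz, hzz⟩
        by_contra hcon
        simp only [mem_iUnion, mem_ofPred_eq, not_exists, not_and, not_not] at hcon
        refine hzz (Finset.eq_of_subset_of_card_le (fun i hi => C.mem_colP.2
          (hcon i hz (C.mem_colM.1 hi))) ?_)
        rw [hP z (Ioo_subset_Ico_self hz), hM z (Ioo_subset_Ioc_self hz)]
    have hα : C.α ∈ G := by
      by_contra hcon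
      refine C.par.not_trans_right hfin hne (fun z hz => Ioo_subset_Ico_self hz.1) ?_ ht
      rintro _ hz y hy rfl
      have h1 : y ≠ 0 := by rintro rfl; exact hcon (hT0 ▸ hz)
      have h2 : y ≠ cp C.α C.β := by
        rintro rfl; rw [hTc] at hz; exact lt_irrefl _ hz.1.1
      exact (hGiff y ⟨lt_of_le_of_ne hy.1 h1.symm, hy.2⟩ h2).2 hz
    have hω : C.α + C.β - 1 ∈ G := by
      by_contra hcon
      refine C.par.not_trans_left hfin hne (fun z hz => Ioo_subset_Ioc_self hz.1) ?_ ht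
      rintro z hz y (⟨h1, h2, rfl⟩ | ⟨h1, h2, rfl⟩)
      · have h3 : y ≠ cp C.α C.β := by
          rintro rfl
          have := hz.1.2
          linarith [C.par.mul_cp]
        have h4 := lt_of_le_of_ne h2 h3
        refine (hGiff y ⟨h1, h4.trans C.par.cp_lt⟩ h3).2 ?_
        rwa [C.par.T_left h1.le h4]
      · have h3 : y ≠ 1 := by
          rintro rfl
          exact hcon (by convert hz using 1; ring)
        have h4 := lt_of_le_of_ne h2 h3
        refine (hGiff y ⟨C.par.cp_pos.trans h1, h4⟩ h1.ne').2 ?_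
        rwa [C.par.T_right h1.le h4]
    refine ⟨insert 0 G, hfin.insert 0, ?_, Or.inr hα, Or.inr hω⟩
    rintro y (rfl | hy)
    · rw [hT0]; exact Or.inr hα
    · by_cases h : y = cp C.α C.β
      · rw [h, hTc]; exact Or.inl rfl
      · exact Or.inr ((hGiff y hy.1 h).1 hy)
  · left
    have hMP : ∀ z ∈ Ioo (0 : ℝ) 1, C.colM z = C.colP z := fun z hz => by
      by_contra h
      exact hne ⟨z, hz, h⟩
    have hconst : ∀ x ∈ Ico (0 : ℝ) 1, C.colP 0 = C.colP x := by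
      intro x hx
      refine isPreconnected_Ico.induction₂' (fun x y => C.colP x = C.colP y) ?_
        (fun _ _ _ _ _ _ h1 h2 => h1.trans h2) ⟨le_rfl, one_pos⟩ hx
      intro x hx
      have h1 : ∀ᶠ y in 𝓝 x, y ∈ Ico (0 : ℝ) 1 → C.colP x ⊆ C.colP y := by
        rw [← nhdsLT_sup_nhdsGE, eventually_sup]
        refine ⟨?_, (C.colP_right x).mono fun y hy _ => hy⟩
        filter_upwards [C.colM_left x, self_mem_nhdsWithin] with y hy hyx hy'
        rwa [← hMP x ⟨hy'.1.trans_lt hyx, hx.2⟩]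
      filter_upwards [mem_nhdsWithin_of_mem_nhds h1, self_mem_nhdsWithin] with y hy hy'
      have := Finset.eq_of_subset_of_card_le (hy hy') (by rw [hP x hx, hP y hy'])
      exact ⟨this, this.symm⟩
    have hall : ∀ i, i ∈ C.colP 0 := by
      have h0 : C.sh (C.colP 0) = C.colP 0 := by
        rw [eP 0 ⟨le_rfl, one_pos⟩, ← hconst _ (T_mem 0)]
      obtain ⟨i0, hi0⟩ : (C.colP 0).Nonempty :=
        Finset.card_pos.1 (by rw [hP 0 ⟨le_rfl, one_pos⟩]; exact hM1)
      have h1 : ∀ k : ℕ, i0 + k ∈ C.colP 0 := by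
        intro k
        induction k with
        | zero => simpa using hi0
        | succ k ih =>
          rw [← h0]
          exact Finset.mem_map.2 ⟨_, ih, by simp [add_assoc]⟩
      intro i
      simpa using h1 (i - i0).val
    have hMp : M = Fintype.card (ZMod C.p) := by
      rw [← hP 0 ⟨le_rfl, one_pos⟩, Finset.eq_univ_of_forall hall, Finset.card_univ]
    have key : ∃ t : ℕ, (t : ZMod C.p) = 0 ∧ Icc 0 1 ∩ Ico 0 1 ⊆ C.V t := by
      refine isCompact_Icc.induction_on (p := fun s => ∃ t : ℕ, (t : ZMod C.p) = 0 ∧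
        s ∩ Ico 0 1 ⊆ C.V t) ⟨0, by simp, by simp⟩ ?_ ?_ ?_
      · rintro s s' hs ⟨t, h1, h2⟩
        exact ⟨t, h1, (inter_subset_inter_left _ hs).trans h2⟩
      · rintro s s' ⟨t, h1, h2⟩ ⟨t', h1', h2'⟩
        obtain ⟨u, g1, g2, g3⟩ := C.V_join (h1.trans h1'.symm)
        refine ⟨u, g1.trans h1, ?_⟩
        rw [union_inter_distrib_right]
        exact union_subset (h2.trans g2) (h2'.trans g3)
      · intro x hx
        obtain ⟨t, h1, s, hs, h2⟩ : ∃ t : ℕ, (t : ZMod C.p) = 0 ∧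
            ∃ s ∈ 𝓝[<] x, s ∩ Ico 0 1 ⊆ C.V t := by
          rcases eq_or_lt_of_le hx.1 with h0 | h0
          · refine ⟨0, by simp, Iio x, self_mem_nhdsWithin, fun y hy => ?_⟩
            exact absurd (hy.2.1.trans_lt hy.1) (h0 ▸ lt_irrefl _)
          · have : C.colM x = Finset.univ :=
              Finset.eq_univ_of_card _ (by rw [hM x ⟨h0, hx.2⟩, hMp])
            obtain ⟨t, g1, ε, hε, g2⟩ := C.mem_colM.1 (this ▸ Finset.mem_univ (0 : ZMod C.p))
            exact ⟨t, g1, _, Ioo_mem_nhdsLT (by linarith), inter_subset_left.trans g2⟩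
        obtain ⟨t', h1', s', hs', h2'⟩ : ∃ t : ℕ, (t : ZMod C.p) = 0 ∧
            ∃ s ∈ 𝓝[≥] x, s ∩ Ico 0 1 ⊆ C.V t := by
          rcases eq_or_lt_of_le hx.2 with h0 | h0
          · refine ⟨0, by simp, Ici x, self_mem_nhdsWithin, fun y hy => ?_⟩
            exact absurd (lt_of_le_of_lt hy.1 hy.2.2) (h0 ▸ lt_irrefl _)
          · obtain ⟨t, a, b, g1, g2, g3, -, g4⟩ := hu 0 x
              (C.mem_colP.1 (hconst x ⟨hx.1, h0⟩ ▸ hall 0))
            exact ⟨t, g1, Ico x b, Ico_mem_nhdsGE g3,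
              inter_subset_left.trans ((Ico_subset_Ico_left g2).trans g4)⟩
        obtain ⟨u, g1, g2, g3⟩ := C.V_join (h1.trans h1'.symm)
        refine ⟨s ∪ s', mem_nhdsWithin_of_mem_nhds ?_, u, g1.trans h1, ?_⟩
        · rw [← nhdsLT_sup_nhdsGE]
          exact union_mem_sup hs hs'
        · rw [union_inter_distrib_right]
          exact union_subset (h2.trans g2) (h2'.trans g3)
    obtain ⟨t, -, h⟩ := key
    exact ⟨t, fun x hx => h ⟨Ico_subset_Icc_self hx, hx⟩⟩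

end Ctx

open Polynomial in
lemma iter_formula (α β x : ℝ) (k : ℕ) : ∃ P : ℤ[X], (∀ j, k ≤ j → P.coeff j = 0) ∧
    (T α β)^[k] x = β ^ k * x + α * ∑ j ∈ Finset.range k, β ^ j - aeval β P := by
  induction k with
  | zero => exact ⟨0, by simp, by simp⟩
  | succ k ih =>
    obtain ⟨P, h1, h2⟩ := ih
    refine ⟨X * P + C ⌊β * (T α β)^[k] x + α⌋, fun j hj => ?_, ?_⟩
    · obtain ⟨j, rfl⟩ : ∃ i, j = i + 1 := ⟨j - 1, by omega⟩
      rw [coeff_add, coeff_X_mul, h1 j (by omega), coeff_C_succ, add_zero]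
    · rw [Function.iterate_succ_apply']
      set y := (T α β)^[k] x with hy
      rw [T, Int.fract, map_add, map_mul, aeval_X, aeval_C, Finset.sum_range_succ', h2]
      simp only [pow_succ', ← Finset.mul_sum, eq_intCast]
      ring

open Polynomial in
/-- The countable set of exceptional parameters. -/
def Exc : Set (ℝ × ℝ) :=
  {q | IsAlgebraic ℤ q.2 ∧ ∃ R S : ℤ[X], q.1 = aeval q.2 R / aeval q.2 S}

open Polynomial in
lemma countable_Exc : Exc.Countable := by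
  have h1 : {x : ℝ | IsAlgebraic ℤ x}.Countable := Algebraic.countable ℤ ℝ
  have h0 : Countable ℤ[X] := by
    rw [← Cardinal.mk_le_aleph0_iff]
    exact cardinalMk_le_max.trans (by simp)
  refine (h1.biUnion fun b _ => countable_range
    fun RS : ℤ[X] × ℤ[X] => ((aeval b RS.1 / aeval b RS.2, b) : ℝ × ℝ)).mono ?_
  rintro ⟨a, b⟩ ⟨h2, R, S, h3⟩
  exact mem_iUnion₂.2 ⟨b, h2, (R, S), Prod.ext h3.symm rfl⟩

open Polynomial in
lemma mem_Exc {α β : ℝ} (h : Par α β) {S : Set ℝ} (hS : S.Finite) (hm : MapsTo (T α β) S S)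
    (h1 : α ∈ S) (h2 : α + β - 1 ∈ S) : (α, β) ∈ Exc := by
  obtain ⟨m, n, hlt, e1, e2⟩ : ∃ m n, m < n ∧ (T α β)^[m] α = (T α β)^[n] α ∧
      (T α β)^[m] (α + β - 1) = (T α β)^[n] (α + β - 1) := by
    obtain ⟨m, n, hlt, he⟩ := (hS.prod hS).exists_lt_map_eq_of_forall_mem
      (f := fun k : ℕ => ((T α β)^[k] α, (T α β)^[k] (α + β - 1)))
      fun k => mem_prod.2 ⟨hm.iterate k h1, hm.iterate k h2⟩
    exact ⟨m, n, hlt, congrArg Prod.fst he, congrArg Prod.snd he⟩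
  obtain ⟨P1, c1, f1⟩ := iter_formula α β α m
  obtain ⟨P2, c2, f2⟩ := iter_formula α β α n
  obtain ⟨Q1, d1, g1⟩ := iter_formula α β (α + β - 1) m
  obtain ⟨Q2, d2, g2⟩ := iter_formula α β (α + β - 1) n
  rw [f1, f2] at e1
  rw [g1, g2] at e2
  refine ⟨⟨X ^ (n + 1) - X ^ n - X ^ (m + 1) + X ^ m + P2 - P1 - Q2 + Q1, fun h0 => ?_, ?_⟩,
    P2 - P1, ∑ j ∈ Finset.range (n + 1), X ^ j - ∑ j ∈ Finset.range (m + 1), X ^ j, ?_⟩
  · have := congrArg (fun P : ℤ[X] => P.coeff (n + 1)) h0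
    simp only [coeff_add, coeff_sub, coeff_X_pow, c1 (n + 1) (by omega), c2 (n + 1) (by omega),
      d1 (n + 1) (by omega), d2 (n + 1) (by omega), coeff_zero] at this
    rw [if_neg (by omega : ¬ n + 1 = n), if_neg (by omega : ¬ n + 1 = m + 1),
      if_neg (by omega : ¬ n + 1 = m)] at this
    simp at this
  · simp only [map_add, map_sub, map_pow, aeval_X]
    rw [pow_succ, pow_succ]
    linarith
  · have hpos : ∑ j ∈ Finset.range (m + 1), β ^ j < ∑ j ∈ Finset.range (n + 1), β ^ j :=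
      Finset.sum_lt_sum_of_subset (Finset.range_subset_range.2 (by omega))
        (i := n) (by simp) (by simp; omega) (pow_pos h.bpos n)
        fun j _ _ => (pow_pos h.bpos j).le
    simp only [map_sub, map_sum, map_pow, aeval_X]
    rw [eq_div_iff (sub_pos.2 hpos).ne', Finset.sum_range_succ, Finset.sum_range_succ]
    linarith

lemma betaMap_iter (α β : ℝ) (n : ℕ) (x : Ico (0 : ℝ) 1) :
    (((betaMap α β)^[n] x : Ico (0 : ℝ) 1) : ℝ) = (T α β)^[n] x := by
  induction n with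
  | zero => rfl
  | succ n ih => rw [Function.iterate_succ_apply', Function.iterate_succ_apply', ← ih]; rfl

lemma rtrans_of {α β : ℝ} (h : TopTransitive (betaMap α β)) : RTrans α β := by
  intro a b a' b' ha hab hb ha' hab' hb'
  obtain ⟨n, -, _, ⟨x, hx, rfl⟩, hx'⟩ := h (Subtype.val ⁻¹' Ioo a b) (Subtype.val ⁻¹' Ioo a' b')
    (isOpen_Ioo.preimage continuous_subtype_val) (isOpen_Ioo.preimage continuous_subtype_val)
    ⟨⟨(a + b) / 2, by linarith, by linarith⟩, by linarith, by linarith⟩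
    ⟨⟨(a' + b') / 2, by linarith, by linarith⟩, by linarith, by linarith⟩
  exact ⟨n, x, hx, by rw [← betaMap_iter]; exact hx'⟩

theorem main {α β : ℝ} (h : Par α β) (ht : TopTransitive (betaMap α β))
    (hl : ¬ TopLEO (betaMap α β)) : (α, β) ∈ Exc := by
  by_contra hcon
  refine hl fun U hU ⟨x, hx⟩ => ?_
  obtain ⟨O, hO, rfl⟩ := isOpen_induced_iff.1 hU
  obtain ⟨b, hb1, hb2⟩ := mem_nhdsGE_iff_exists_Ico_subset.1
    (inter_mem (mem_nhdsWithin_of_mem_nhds (hO.mem_nhds hx)) (Ico_mem_nhdsGE x.2.2))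
  have hb3 : b ≤ 1 := by
    by_contra h'
    exact lt_irrefl _ (hb2 ⟨x.2.2.le, not_le.1 h'⟩).2.2
  obtain ⟨w, w', k, p, g0, g1, g2, g3, g4, g5, g6⟩ := h.self_cover x.2.1 hb1 hb3
  rcases Ctx.dichotomy ⟨α, β, w, w', p, h, g0, g1, g2, g4, g6⟩ (rtrans_of ht) with
    ⟨t, h1⟩ | ⟨S, h1, h2, h3, h4⟩
  · refine ⟨t + k, by omega, eq_univ_of_forall fun z => ?_⟩
    have h5 : (z : ℝ) ∈ (T α β)^[t + k] '' Ico (x : ℝ) b := by
      rw [image_iter_add]
      exact image_mono g5 (h1 z.2)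
    obtain ⟨y, hy, hy'⟩ := h5
    refine ⟨⟨y, x.2.1.trans hy.1, hy.2.trans_le hb3⟩, (hb2 hy).1, Subtype.ext ?_⟩
    rw [betaMap_iter]; exact hy'
  · exact absurd (mem_Exc h h1 h2 h3 h4) hcon

end Pool.Agent.Work.MP_ce4ed9_an
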