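import Pool.Agent.Work.MP_ce4ed9_an.Growth

/-! Finite backward invariant sets prevent transitivity. -/

open Set Filter Topology

namespace Pool.Agent.Work.MP_ce4ed9_an

variable {α β : ℝ}

/-- Transitivity, read on intervals of the real line. -/
def RTrans (α β : ℝ) : Prop :=
  ∀ a b a' b' : ℝ, 0 ≤ a → a < b → b ≤ 1 → 0 ≤ a' → a' < b' → b' ≤ 1 →
    ∃ n : ℕ, ∃ x ∈ Ioo a b, (T α β)^[n] x ∈ Ioo a' b'

/-- `z` is the limit from the left of the map at `y`. -/
def Tm (α β y z : ℝ) : Prop :=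
  (0 < y ∧ y ≤ cp α β ∧ z = β * y + α) ∨ (cp α β < y ∧ y ≤ 1 ∧ z = β * y + α - 1)

lemma exists_free {F : Set ℝ} (hF : F.Finite) :
    ∃ e η : ℝ, 0 < η ∧ η ≤ e ∧ e + η ≤ 1 ∧ ∀ z ∈ F, η ≤ |z - e| := by
  obtain ⟨e, he, heF⟩ := (Ioo_infinite (zero_lt_one' ℝ)).exists_notMem_finite hF
  obtain ⟨η, hη, h⟩ := exists_gap hF e
  refine ⟨e, min η (min e (1 - e)), lt_min hη (lt_min he.1 (by linarith [he.2])),
    (min_le_right _ _).trans (min_le_left _ _), ?_, fun z hz => ?_⟩
  · have : min η (min e (1 - e)) ≤ 1 - e := (min_le_right _ _).trans (min_le_right _ _)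
    linarith
  · exact (min_le_left _ _).trans (h z hz fun h' => heF (h' ▸ hz))

lemma back_iter {N : Set ℝ} (hN : ∀ y ∈ Ico (0 : ℝ) 1, T α β y ∈ N → y ∈ N) (n : ℕ) :
    ∀ x ∈ Ico (0 : ℝ) 1, (T α β)^[n] x ∈ N → x ∈ N := by
  induction n with
  | zero => exact fun x _ hx => hx
  | succ n ih => exact fun x hx h => hN x hx (ih _ (T_mem x) h)

lemma Par.not_trans_right (h : Par α β) {F : Set ℝ} (hF : F.Finite) (hne : F.Nonempty)
    (hsub : F ⊆ Ico 0 1) (hinv : ∀ z ∈ F, ∀ y ∈ Ico (0 : ℝ) 1, T α β y = z → y ∈ F) :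
    ¬ RTrans α β := by
  intro ht
  obtain ⟨e, η, hη, he0, he1, hfree⟩ := exists_free hF
  obtain ⟨η', hη', hgap⟩ := exists_gap hF α
  obtain ⟨z0, hz0⟩ := hne
  set ε := min (η / 2) η' with hε
  have hε0 : 0 < ε := lt_min (by linarith) hη'
  have hε1 : ε ≤ η / 2 := min_le_left _ _
  have hε2 : ε ≤ η' := min_le_right _ _
  have hb := h.bpos
  let N : Set ℝ := {x | ∃ z ∈ F, z < x ∧ x < z + ε}
  have hN : ∀ y ∈ Ico (0 : ℝ) 1, T α β y ∈ N → y ∈ N := by
    rintro y hy ⟨z, hz, h1, h2⟩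
    have hz' := hsub hz
    have fin : ∀ y', 0 ≤ y' → β * (y - y') = T α β y - z → (y' < y → T α β y' = z) → y ∈ N := by
      intro y' h0 h3 h4
      have h5 : y' < y := by
        by_contra h6
        have := mul_nonneg hb.le (sub_nonneg.2 (not_lt.1 h6))
        linarith
      refine ⟨y', hinv z hz y' ⟨h0, h5.trans hy.2⟩ (h4 h5), h5, ?_⟩
      have := mul_lt_mul_of_pos_right h.h1 (sub_pos.2 h5)
      linarith
    rcases lt_or_ge y (cp α β) with hc | hc
    · have e1 := h.T_left hy.1 hc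
      have hzα : α ≤ z := by
        by_contra h3
        have h4 := hgap z hz (not_le.1 h3).ne
        rw [abs_of_neg (by linarith)] at h4
        have := mul_nonneg hb.le hy.1
        linarith
      have h0 : 0 ≤ (z - α) / β := div_nonneg (by linarith) hb.le
      refine fin _ h0 (by rw [e1]; field_simp; ring) fun h5 => ?_
      rw [h.T_left h0 (h5.trans hc)]; field_simp; ring
    · have e1 := h.T_right hc hy.2
      have h0 : cp α β ≤ (z + 1 - α) / β := by
        unfold cp; exact div_le_div_of_nonneg_right (by linarith [hz'.1]) hb.le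
      refine fin _ (h.cp_pos.le.trans h0) (by rw [e1]; field_simp; ring) fun h5 => ?_
      rw [h.T_right h0 (h5.trans hy.2)]; field_simp; ring
  obtain ⟨n, x, hx, hx'⟩ := ht (e - η / 2) (e + η / 2) z0 (min (z0 + ε) 1) (by linarith)
    (by linarith) (by linarith) (hsub hz0).1 (lt_min (by linarith) (hsub hz0).2) (min_le_right _ _)
  obtain ⟨z, hz, h1, h2⟩ := back_iter hN n x ⟨by linarith [hx.1], by linarith [hx.2]⟩
    ⟨z0, hz0, hx'.1, hx'.2.trans_le (min_le_left _ _)⟩
  have h3 := hfree z hz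
  rcases le_abs.1 h3 with h4 | h4 <;> linarith [hx.1, hx.2]

lemma Par.not_trans_left (h : Par α β) {F : Set ℝ} (hF : F.Finite) (hne : F.Nonempty)
    (hsub : F ⊆ Ioc 0 1) (hinv : ∀ z ∈ F, ∀ y, Tm α β y z → y ∈ F) :
    ¬ RTrans α β := by
  intro ht
  obtain ⟨e, η, hη, he0, he1, hfree⟩ := exists_free hF
  obtain ⟨η', hη', hgap⟩ := exists_gap hF (α + β - 1)
  obtain ⟨z0, hz0⟩ := hne
  set ε := min (η / 2) η' with hε
  have hε0 : 0 < ε := lt_min (by linarith) hη'
  have hε1 : ε ≤ η / 2 := min_le_left _ _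
  have hε2 : ε ≤ η' := min_le_right _ _
  have hb := h.bpos
  let N : Set ℝ := {x | ∃ z ∈ F, z - ε < x ∧ x < z}
  have hN : ∀ y ∈ Ico (0 : ℝ) 1, T α β y ∈ N → y ∈ N := by
    rintro y hy ⟨z, hz, h1, h2⟩
    have hz' := hsub hz
    have fin : ∀ y', β * (y' - y) = z - T α β y → (y < y' → Tm α β y' z) → y ∈ N := by
      intro y' h3 h4
      have h5 : y < y' := by
        by_contra h6
        have := mul_nonneg hb.le (sub_nonneg.2 (not_lt.1 h6))
        linarith
      refine ⟨y', hinv z hz y' (h4 h5), ?_, h5⟩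
      have := mul_lt_mul_of_pos_right h.h1 (sub_pos.2 h5)
      linarith
    rcases lt_or_ge y (cp α β) with hc | hc
    · have e1 := h.T_left hy.1 hc
      refine fin ((z - α) / β) (by rw [e1]; field_simp; ring) fun h5 => Or.inl
        ⟨hy.1.trans_lt h5, ?_, by field_simp; ring⟩
      unfold cp; exact div_le_div_of_nonneg_right (by linarith [hz'.2]) hb.le
    · have e1 := h.T_right hc hy.2
      have hzω : z ≤ α + β - 1 := by
        by_contra h3
        have h4 := hgap z hz (not_le.1 h3).ne'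
        rw [abs_of_pos (by linarith)] at h4
        have := mul_lt_mul_of_pos_left hy.2 hb
        linarith
      refine fin ((z + 1 - α) / β) (by rw [e1]; field_simp; ring) fun h5 => Or.inr
        ⟨hc.trans_lt h5, ?_, by field_simp; ring⟩
      rw [div_le_one hb]; linarith
  obtain ⟨n, x, hx, hx'⟩ := ht (e - η / 2) (e + η / 2) (max (z0 - ε) 0) z0 (by linarith)
    (by linarith) (by linarith) (le_max_right _ _) (max_lt (by linarith) (hsub hz0).1) (hsub hz0).2
  obtain ⟨z, hz, h1, h2⟩ := back_iter hN n x ⟨by linarith [hx.1], by linarith [hx.2]⟩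
    ⟨z0, hz0, (le_max_left _ _).trans_lt hx'.1, hx'.2⟩
  have h3 := hfree z hz
  rcases le_abs.1 h3 with h4 | h4 <;> linarith [hx.1, hx.2]

/-- A separated subset of `[0, 1]` is finite. -/
lemma finite_of_sep {S : Set ℝ} {ρ : ℝ} (hρ : 0 < ρ) (hS : S ⊆ Icc 0 1)
    (hsep : ∀ z ∈ S, ∀ z' ∈ S, z < z' → z + ρ ≤ z') : S.Finite := by
  refine Finite.of_finite_image (f := fun z => ⌊z / ρ⌋₊)
    ((finite_Iic ⌊1 / ρ⌋₊).subset ?_) ?_
  · rintro _ ⟨z, hz, rfl⟩
    exact Nat.floor_mono (div_le_div_of_nonneg_right (hS hz).2 hρ.le)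
  · have key : ∀ z ∈ S, ∀ z' ∈ S, z < z' → ⌊z / ρ⌋₊ < ⌊z' / ρ⌋₊ := by
      intro z hz z' hz' hlt
      have h1 : z / ρ + 1 ≤ z' / ρ := by
        rw [← div_self hρ.ne', ← add_div]
        exact div_le_div_of_nonneg_right (hsep z hz z' hz' hlt) hρ.le
      have h2 := Nat.floor_mono h1
      rw [Nat.floor_add_one (div_nonneg (hS hz).1 hρ.le)] at h2
      exact h2
    intro z hz z' hz' he
    rcases lt_trichotomy z z' with h1 | h1 | h1
    · exact absurd he (key z hz z' hz' h1).ne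
    · exact h1
    · exact absurd he (key z' hz' z hz h1).ne'

end Pool.Agent.Work.MP_ce4ed9_an
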